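import Mathlib

/-!
# Reversals of an integer valued function of time
-/

namespace Pool.Agent.H50.REV

/-- at step `s` the function `h` changes, and its last change before had the opposite sign -/
def Rvs (h : ℕ → ℕ) (s : ℕ) : Prop :=
  ∃ r < s, (∀ i, r < i → i < s → h (i + 1) = h i) ∧
    ((h r < h (r + 1) ∧ h (s + 1) < h s) ∨ (h (r + 1) < h r ∧ h s < h (s + 1)))

theorem step_dn {g : ℕ → ℕ} {u u' : ℕ} (huu : u ≤ u') (hlt : g u' < g u) :
    ∃ i, u ≤ i ∧ i < u' ∧ g (i + 1) < g i := by
  by_contra hno
  push Not at hno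
  have : ∀ v, u ≤ v → v ≤ u' → g u ≤ g v := by
    intro v hv
    induction v, hv using Nat.le_induction with
    | base => intro _; exact le_rfl
    | succ m hm ih =>
      intro h
      exact (ih (by omega)).trans (hno m hm (by omega))
  have := this u' huu le_rfl
  omega

theorem step_up {g : ℕ → ℕ} {u u' : ℕ} (huu : u ≤ u') (hlt : g u < g u') :
    ∃ i, u ≤ i ∧ i < u' ∧ g i < g (i + 1) := by
  by_contra hno
  push Not at hno
  have : ∀ v, u ≤ v → v ≤ u' → g v ≤ g u := by
    intro v hv
    induction v, hv using Nat.le_induction with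
    | base => intro _; exact le_rfl
    | succ m hm ih =>
      intro h
      exact (hno m hm (by omega)).trans (ih (by omega))
  have := this u' huu le_rfl
  omega

/-- a function which is not monotone on `[t, t']` has a reversal strictly inside -/
theorem exists_rvs {g : ℕ → ℕ} {t t' : ℕ}
    (h1 : ¬ ∀ s s', t ≤ s → s ≤ s' → s' ≤ t' → g s ≤ g s' + 0)
    (h2 : ¬ ∀ s s', t ≤ s → s ≤ s' → s' ≤ t' → g s' ≤ g s + 0) :
    ∃ s, t < s ∧ s < t' ∧ Rvs g s := by
  by_contra hsep
  push Not at h1 h2 hsep
  obtain ⟨s₁, s₁', a1, a2, a3, a4⟩ := h1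
  obtain ⟨s₂, s₂', b1, b2, b3, b4⟩ := h2
  simp only [add_zero] at a4 b4
  obtain ⟨i, i1, i2, i3⟩ := step_dn a2 a4
  obtain ⟨j, j1, j2, j3⟩ := step_up b2 b4
  have key : ∀ d u : ℕ, t ≤ u → u + d < t' → 0 < d →
      ((g u < g (u + 1) ∧ g (u + d + 1) < g (u + d)) ∨ (g (u + 1) < g u ∧ g (u + d) < g (u + d + 1))) →
      False := by
    intro d
    induction d using Nat.strong_induction_on with
    | _ d ih =>
      intro u hu hud hd hopp
      by_cases hconst : ∀ i, u < i → i < u + d → g (i + 1) = g i
      · exact hsep (u + d) (by omega) hud ⟨u, by omega, hconst, hopp⟩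
      · push Not at hconst
        obtain ⟨m, m1, m2, m3⟩ := hconst
        have e1 : m + (u + d - m) = u + d := by omega
        have e2 : u + (m - u) = m := by omega
        rcases lt_or_gt_of_ne m3 with hlt | hgt
        · rcases hopp with ⟨o1, o2⟩ | ⟨o1, o2⟩
          · exact ih (m - u) (by omega) u hu (by omega) (by omega) (by rw [e2]; exact Or.inl ⟨o1, hlt⟩)
          · exact ih (u + d - m) (by omega) m (by omega) (by omega) (by omega)
              (by rw [e1]; exact Or.inr ⟨hlt, o2⟩)
        · rcases hopp with ⟨o1, o2⟩ | ⟨o1, o2⟩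
          · exact ih (u + d - m) (by omega) m (by omega) (by omega) (by omega)
              (by rw [e1]; exact Or.inl ⟨hgt, o2⟩)
          · exact ih (m - u) (by omega) u hu (by omega) (by omega) (by rw [e2]; exact Or.inr ⟨o1, hgt⟩)
  rcases lt_trichotomy i j with hij | hij | hij
  · exact key (j - i) i (by omega) (by omega) (by omega)
      (by rw [show i + (j - i) = j by omega]; exact Or.inr ⟨i3, j3⟩)
  · subst hij; omega
  · exact key (i - j) j (by omega) (by omega) (by omega)
      (by rw [show j + (i - j) = i by omega]; exact Or.inl ⟨j3, i3⟩)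

/-- counting: if every window `[t, A (t+1)]` contains events of two different kinds, then two kinds of
events happen at least `ε log n` times before `n` -/
theorem count_two {K : Type} [Fintype K] [DecidableEq K] {A : ℕ} {W : K → Prop} {R : K → ℕ → Prop}
    (hA : ∀ t, ∃ k₁ k₂, k₁ ≠ k₂ ∧ W k₁ ∧ W k₂ ∧ (∃ s, t < s ∧ s < A * (t + 1) ∧ R k₁ s) ∧
      (∃ s, t < s ∧ s < A * (t + 1) ∧ R k₂ s)) :
    ∃ ε : ℝ, 0 < ε ∧ ∀ᶠ n : ℕ in Filter.atTop, ∃ k₁ k₂, k₁ ≠ k₂ ∧ W k₁ ∧ W k₂ ∧
      ε * Real.log n ≤ Nat.card {s | s < n ∧ R k₁ s} ∧ ε * Real.log n ≤ Nat.card {s | s < n ∧ R k₂ s} := by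
  classical
  set G := 2 * A + 2 with hG
  have hG2 : 2 ≤ G := by omega
  have hGlog : 0 < Real.log G := Real.log_pos (by exact_mod_cast (by omega : 1 < G))
  obtain ⟨k₀, -⟩ := hA 0
  have hK : 0 < Fintype.card K := Fintype.card_pos_iff.2 ⟨k₀⟩
  have hKR : (0 : ℝ) < Fintype.card K := by exact_mod_cast hK
  refine ⟨1 / (2 * Real.log G * Fintype.card K), by positivity, ?_⟩
  filter_upwards [Filter.eventually_ge_atTop G] with n hn
  set J := Nat.log G n with hJ
  have hJ1 : 1 ≤ J := by
    rw [hJ]
    exact Nat.log_pos (by omega) hn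
  have hn0 : n ≠ 0 := by omega
  have hGJ : G ^ J ≤ n := Nat.pow_log_le_self G hn0
  have hGJ' : n < G ^ (J + 1) := Nat.lt_pow_succ_log_self (by omega) n
  -- the windows of the stack `k`
  set N : K → Finset ℕ := fun k => if W k then
    (Finset.range J).filter (fun j => ∃ s, G ^ j < s ∧ s < G ^ (j + 1) ∧ R k s) else ∅ with hN
  have hwin : ∀ j < J, ∃ k₁ k₂, k₁ ≠ k₂ ∧ j ∈ N k₁ ∧ j ∈ N k₂ := by
    intro j hj
    obtain ⟨k₁, k₂, hne, w1, w2, ⟨s₁, a1, a2, a3⟩, ⟨s₂, b1, b2, b3⟩⟩ := hA (G ^ j)
    have h0 : 0 < G ^ j := Nat.pos_of_ne_zero (by positivity)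
    have h3 : A * (G ^ j + 1) < G ^ (j + 1) := by
      rw [pow_succ, hG]
      rw [← hG]
      have : G ^ j * G = A * (G ^ j) + A * G ^ j + 2 * G ^ j := by
        conv_lhs => rw [hG, ← hG]
        have : G = 2 * A + 2 := hG
        calc G ^ j * G = G ^ j * (2 * A + 2) := by rw [← this]
          _ = _ := by ring
      have h4 : A ≤ A * G ^ j := Nat.le_mul_of_pos_right _ h0
      have h5 : A * (G ^ j + 1) = A * G ^ j + A := by ring
      omega
    refine ⟨k₁, k₂, hne, ?_, ?_⟩
    · simp only [hN, if_pos w1, Finset.mem_filter, Finset.mem_range]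
      exact ⟨hj, s₁, a1, by omega, a3⟩
    · simp only [hN, if_pos w2, Finset.mem_filter, Finset.mem_range]
      exact ⟨hj, s₂, b1, by omega, b3⟩
  have hNJ : ∀ k, (N k).card ≤ J := by
    intro k
    simp only [hN]
    split_ifs
    · exact (Finset.card_filter_le _ _).trans (by simp)
    · simp
  have hsum : 2 * J ≤ ∑ k, (N k).card := by
    have h1 : ∑ k, (N k).card = ∑ j ∈ Finset.range J, (Finset.univ.filter (fun k => j ∈ N k)).card := by
      have h2 : ∀ k, (N k).card = ∑ j ∈ Finset.range J, if j ∈ N k then 1 else 0 := by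
        intro k
        rw [Finset.card_eq_sum_ones, ← Finset.sum_filter]
        apply Finset.sum_congr _ (fun _ _ => rfl)
        ext j
        simp only [Finset.mem_filter, Finset.mem_range]
        constructor
        · intro h
          refine ⟨?_, h⟩
          simp only [hN] at h
          split_ifs at h
          · simp only [Finset.mem_filter, Finset.mem_range] at h
            exact h.1
          · simp at h
        · exact fun h => h.2
      simp only [h2]
      rw [Finset.sum_comm]
      apply Finset.sum_congr rfl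
      intro j _
      rw [Finset.card_eq_sum_ones, ← Finset.sum_filter]
    rw [h1]
    have h3 : ∀ j ∈ Finset.range J, 2 ≤ (Finset.univ.filter (fun k => j ∈ N k)).card := by
      intro j hj
      obtain ⟨k₁, k₂, hne, m1, m2⟩ := hwin j (Finset.mem_range.1 hj)
      have : ({k₁, k₂} : Finset K) ⊆ Finset.univ.filter (fun k => j ∈ N k) := by
        intro k hk
        simp only [Finset.mem_insert, Finset.mem_singleton] at hk
        simp only [Finset.mem_filter, Finset.mem_univ, true_and]
        rcases hk with rfl | rfl <;> assumption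
      calc 2 = ({k₁, k₂} : Finset K).card := (Finset.card_pair hne).symm
        _ ≤ _ := Finset.card_le_card this
    calc 2 * J = ∑ _j ∈ Finset.range J, 2 := by simp [mul_comm]
      _ ≤ _ := Finset.sum_le_sum h3
  obtain ⟨k₁, -, hk₁⟩ := Finset.exists_max_image (Finset.univ : Finset K) (fun k => (N k).card)
    ⟨k₀, Finset.mem_univ _⟩
  have hrest : J ≤ ∑ k ∈ Finset.univ.erase k₁, (N k).card := by
    have := Finset.add_sum_erase Finset.univ (fun k => (N k).card) (Finset.mem_univ k₁)
    have h1 := hNJ k₁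
    omega
  obtain ⟨k₂, hk₂, hk₂'⟩ : ∃ k₂ ∈ Finset.univ.erase k₁, J ≤ Fintype.card K * (N k₂).card := by
    by_contra hcon
    push Not at hcon
    have hne : (Finset.univ.erase k₁).Nonempty := by
      by_contra hemp
      rw [Finset.not_nonempty_iff_eq_empty] at hemp
      rw [hemp] at hrest
      simp at hrest
      omega
    have h1 : ∑ k ∈ Finset.univ.erase k₁, Fintype.card K * (N k).card <
        ∑ _k ∈ Finset.univ.erase k₁, J := Finset.sum_lt_sum_of_nonempty hne hcon
    rw [← Finset.mul_sum, Finset.sum_const, smul_eq_mul, Finset.card_erase_of_mem (Finset.mem_univ _),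
      Finset.card_univ] at h1
    have h2 : Fintype.card K * J ≤ Fintype.card K * ∑ k ∈ Finset.univ.erase k₁, (N k).card :=
      Nat.mul_le_mul_left _ hrest
    have h3 : (Fintype.card K - 1) * J ≤ Fintype.card K * J := Nat.mul_le_mul_right _ (Nat.sub_le _ _)
    omega
  have hne : k₁ ≠ k₂ := fun h => by
    rw [h] at hk₂; exact (Finset.notMem_erase _ _) hk₂
  have hk₁' : J ≤ Fintype.card K * (N k₁).card :=
    hk₂'.trans (Nat.mul_le_mul_left _ (hk₁ k₂ (Finset.mem_univ _)))
  -- from windows to times
  have hfin : ∀ k, J ≤ Fintype.card K * (N k).card → W k ∧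
      1 / (2 * Real.log G * Fintype.card K) * Real.log n ≤ Nat.card {s | s < n ∧ R k s} := by
    intro k hk
    have hW : W k := by
      by_contra hW
      simp only [hN, if_neg hW, Finset.card_empty, mul_zero] at hk
      omega
    refine ⟨hW, ?_⟩
    have hf : ({s | s < n ∧ R k s} : Set ℕ).Finite := (Set.finite_Iio n).subset (fun s hs => hs.1)
    have hcard : Nat.card {s | s < n ∧ R k s} = hf.toFinset.card := by
      rw [Nat.card_coe_set_eq, Set.ncard_eq_toFinset_card _ hf]
    have hle : (N k).card ≤ hf.toFinset.card := by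
      have hsub : N k ⊆ hf.toFinset.image (Nat.log G) := by
        intro j hj
        simp only [hN, if_pos hW, Finset.mem_filter, Finset.mem_range] at hj
        obtain ⟨hj, s, s1, s2, s3⟩ := hj
        rw [Finset.mem_image]
        have hle : G ^ (j + 1) ≤ n := (Nat.pow_le_pow_right (by omega) hj).trans hGJ
        refine ⟨s, ?_, ?_⟩
        · rw [Set.Finite.mem_toFinset]
          exact ⟨by omega, s3⟩
        · rw [Nat.log_eq_iff (Or.inr ⟨by omega, by
            have h0 : 0 < G ^ j := Nat.pos_of_ne_zero (by positivity)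
            omega⟩)]
          exact ⟨s1.le, s2⟩
      exact (Finset.card_le_card hsub).trans Finset.card_image_le
    rw [hcard]
    have hlog : Real.log n ≤ (J + 1) * Real.log G := by
      have h1 : Real.log n ≤ Real.log ((G : ℝ) ^ (J + 1)) := by
        apply Real.log_le_log (by exact_mod_cast Nat.pos_of_ne_zero hn0)
        exact_mod_cast hGJ'.le
      rw [Real.log_pow] at h1
      exact_mod_cast h1
    have hJR : (1 : ℝ) ≤ J := by exact_mod_cast hJ1
    have h1 : (J : ℝ) ≤ Fintype.card K * (hf.toFinset.card : ℝ) := by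
      have : J ≤ Fintype.card K * hf.toFinset.card := hk.trans (Nat.mul_le_mul_left _ hle)
      exact_mod_cast this
    rw [one_div, inv_mul_le_iff₀ (by positivity)]
    have h2 : Real.log n ≤ 2 * J * Real.log G := hlog.trans (by nlinarith)
    have h3 : 2 * (J : ℝ) * Real.log G ≤ 2 * (Fintype.card K * (hf.toFinset.card : ℝ)) * Real.log G := by
      apply mul_le_mul_of_nonneg_right _ hGlog.le
      linarith
    calc Real.log n ≤ 2 * (Fintype.card K * (hf.toFinset.card : ℝ)) * Real.log G := h2.trans h3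
      _ = _ := by ring
  obtain ⟨w1, r1⟩ := hfin k₁ hk₁'
  obtain ⟨w2, r2⟩ := hfin k₂ hk₂'
  exact ⟨k₁, k₂, hne, w1, w2, r1, r2⟩

end Pool.Agent.H50.REV
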