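import Mathlib

/-!
Stair times of a height function: times at which the height is a minimum up to a later time.
-/

namespace Pool.Agent.H50.REV

/-- `K + 1` times in `[r, s]`, at each of which `h` is minimal up to the last of them -/
def Stairs (K : ℕ) (h : ℕ → ℕ) (r s : ℕ) : Prop :=
  ∃ f : ℕ → ℕ, (∀ i j, i < j → j ≤ K → f i < f j) ∧ r ≤ f 0 ∧ f K ≤ s ∧
    ∀ i ≤ K, ∀ j, f i ≤ j → j ≤ f K → h (f i) ≤ h j

theorem Stairs.mono {K : ℕ} {h : ℕ → ℕ} {r s r' s' : ℕ} (H : Stairs K h r s) (hr : r' ≤ r)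
    (hs : s ≤ s') : Stairs K h r' s' := by
  obtain ⟨f, h1, h2, h3, h4⟩ := H
  exact ⟨f, h1, hr.trans h2, h3.trans hs, h4⟩

/-- a big gain of height gives stairs -/
theorem stairs_of_height {K W : ℕ} {h : ℕ → ℕ} {r s : ℕ} (hrs : r ≤ s)
    (hstep : ∀ j, r ≤ j → j < s → h (j + 1) ≤ h j + W) (hh : h r + W * (K + 1) < h s) :
    Stairs K h r s := by
  classical
  set f : ℕ → ℕ := fun i => Nat.findGreatest (fun j => r ≤ j ∧ h j ≤ h r + W * i) s with hf
  have hP : ∀ i, r ≤ f i ∧ h (f i) ≤ h r + W * i := by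
    intro i
    have := Nat.findGreatest_spec (P := fun j => r ≤ j ∧ h j ≤ h r + W * i) hrs
      ⟨le_rfl, Nat.le_add_right _ _⟩
    exact this
  have hle : ∀ i, f i ≤ s := fun i => Nat.findGreatest_le s
  have hgt : ∀ i j, f i < j → j ≤ s → h r + W * i < h j := by
    intro i j hij hjs
    have := Nat.findGreatest_is_greatest (P := fun j => r ≤ j ∧ h j ≤ h r + W * i) hij hjs
    by_contra hcon
    exact this ⟨(hP i).1.trans hij.le, by omega⟩
  have hlt : ∀ i ≤ K, f i < s := by
    intro i hi
    refine lt_of_le_of_ne (hle i) ?_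
    intro heq
    have h1 := (hP i).2
    rw [heq] at h1
    have h2 : W * i ≤ W * (K + 1) := Nat.mul_le_mul_left _ (by omega)
    omega
  have hsucc : ∀ i, i + 1 ≤ K → f i < f (i + 1) := by
    intro i hi
    have h1 := hlt i (by omega)
    have h2 := hstep (f i) (hP i).1 h1
    have h3 : f i + 1 ≤ f (i + 1) := by
      apply Nat.le_findGreatest (by omega)
      refine ⟨(hP i).1.trans (Nat.le_succ _), ?_⟩
      have h4 := (hP i).2
      have h5 : W * (i + 1) = W * i + W := by ring
      omega
    omega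
  refine ⟨f, ?_, (hP 0).1, hle K, ?_⟩
  · intro i j hij
    induction j, hij using Nat.le_induction with
    | base => intro hj; exact hsucc i hj
    | succ j hij ih =>
      intro hj
      exact (ih (by omega)).trans (hsucc j hj)
  · intro i hi j h1 h2
    rcases Nat.eq_or_lt_of_le h1 with h3 | h3
    · rw [h3]
    · have h4 := hgt i j h3 (h2.trans (hle K))
      have h5 := (hP i).2
      omega

/-- a long run with heights in a bounded range gives stairs -/
theorem stairs_of_range (K R : ℕ) : ∃ L : ℕ, ∀ (h : ℕ → ℕ) (v r s : ℕ), r + L ≤ s →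
    (∀ j, r ≤ j → j ≤ s → v ≤ h j ∧ h j ≤ v + R) → Stairs K h r s := by
  induction R with
  | zero =>
    refine ⟨K, fun h v r s hL hv => ⟨fun i => r + i, ?_, by simp, by simpa using hL, ?_⟩⟩
    · intro i j hij _
      simpa using hij
    · intro i hi j h1 h2
      dsimp only at h1 h2 ⊢
      have h3 := hv (r + i) (by omega) (by omega)
      have h4 := hv j (by omega) (by omega)
      omega
  | succ R ih =>
    obtain ⟨L, hL⟩ := ih
    refine ⟨(K + 1) * (L + 1), fun h v r s hrs hv => ?_⟩
    have hblock : ∀ i ≤ K, r + i * (L + 1) + L ≤ s := by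
      intro i hi
      have h1 : i * (L + 1) ≤ K * (L + 1) := Nat.mul_le_mul_right _ hi
      have h2 : (K + 1) * (L + 1) = K * (L + 1) + (L + 1) := by ring
      omega
    by_cases hcase : ∀ i ≤ K, ∃ j, r + i * (L + 1) ≤ j ∧ j ≤ r + i * (L + 1) + L ∧ h j = v
    · choose! f hf1 hf2 hf3 using hcase
      refine ⟨f, ?_, ?_, ?_, ?_⟩
      · intro i j hij hj
        have h1 := hf2 i (by omega)
        have h2 := hf1 j hj
        have h3 : (i + 1) * (L + 1) ≤ j * (L + 1) := Nat.mul_le_mul_right _ (by omega)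
        have h4 : (i + 1) * (L + 1) = i * (L + 1) + (L + 1) := by ring
        omega
      · have := hf1 0 (Nat.zero_le _)
        omega
      · exact (hf2 K le_rfl).trans (hblock K le_rfl)
      · intro i hi j h1 h2
        rw [hf3 i hi]
        refine (hv j ?_ ?_).1
        · have := hf1 i hi
          omega
        · have := (hf2 K le_rfl).trans (hblock K le_rfl)
          omega
    · push Not at hcase
      obtain ⟨i, hi, hno⟩ := hcase
      have h1 := hL h (v + 1) (r + i * (L + 1)) (r + i * (L + 1) + L) le_rfl (by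
        intro j hj1 hj2
        have h2 := hno j hj1 hj2
        have h3 := hv j (by omega) (hj2.trans (hblock i hi))
        omega)
      exact h1.mono (by omega) (hblock i hi)

/-- the bound for the length of runs without stairs -/
theorem stairs_exist (K W : ℕ) : ∃ L : ℕ, ∀ (h : ℕ → ℕ) (r s : ℕ), r ≤ s →
    (∀ j, r ≤ j → j < s → h (j + 1) ≤ h j + W) → (∀ j, r ≤ j → j ≤ s → h r ≤ h j) →
    (r + L ≤ s ∨ h r + W * (K + 1) < h s) → Stairs K h r s := by
  obtain ⟨L, hL⟩ := stairs_of_range K (W * (K + 1))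
  refine ⟨L, fun h r s hrs hstep hmin hor => ?_⟩
  by_cases hcase : ∃ e, r ≤ e ∧ e ≤ s ∧ h r + W * (K + 1) < h e
  · obtain ⟨e, he1, he2, he3⟩ := hcase
    exact (stairs_of_height he1 (fun j h1 h2 => hstep j h1 (by omega)) he3).mono le_rfl he2
  · push Not at hcase
    rcases hor with h1 | h1
    · exact hL h (h r) r s h1 fun j hj1 hj2 => ⟨hmin j hj1 hj2, hcase j hj1 hj2⟩
    · exact absurd (hcase s hrs le_rfl) (by omega)

end Pool.Agent.H50.REV
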