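import Pool.Agent.H77.RT.Phase
import Pool.Agent.H50.REV.Stairs

/-!
Phases in which one stack is unrestricted and the other stacks make no large reversal.
-/

namespace Pool.Agent.H50.REV

open Pool.Agent.H77.RT

section core

variable {K : Type} {Γ : K → Type} {Q : Type}

/-- `up` phase of the stack `k` -/
def Up (S : ℕ → ∀ k, List (Γ k)) (B t t' : ℕ) (k : K) : Prop :=
  ∀ s s', t ≤ s → s ≤ s' → s' ≤ t' → (S s k).length ≤ (S s' k).length + B

/-- `down` phase of the stack `k` -/
def Dn (S : ℕ → ∀ k, List (Γ k)) (B t t' : ℕ) (k : K) : Prop :=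
  ∀ s s', t ≤ s → s ≤ s' → s' ≤ t' → (S s' k).length ≤ (S s k).length + B

/-- minimum of the height of the stack `k` over `[t, n]` -/
def rm (S : ℕ → ∀ k, List (Γ k)) (t : ℕ) (k : K) (n : ℕ) : ℕ :=
  rmin (fun i => (S (t + i) k).length) (n - t)

theorem rm_le (S : ℕ → ∀ k, List (Γ k)) {t : ℕ} {k : K} {r n : ℕ} (h1 : t ≤ r) (h2 : r ≤ n) :
    rm S t k n ≤ (S r k).length := by
  unfold rm
  have := rmin_le (fun i => (S (t + i) k).length) (r := r - t) (n := n - t) (by omega)
  simpa [show t + (r - t) = r by omega] using this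

theorem rm_exists (S : ℕ → ∀ k, List (Γ k)) {t : ℕ} {k : K} {n : ℕ} (h : t ≤ n) :
    ∃ r, t ≤ r ∧ r ≤ n ∧ rm S t k n = (S r k).length := by
  obtain ⟨r, hr, h1⟩ := rmin_exists (fun i => (S (t + i) k).length) (n - t)
  exact ⟨t + r, by omega, by omega, h1⟩

theorem rm_anti (S : ℕ → ∀ k, List (Γ k)) {t : ℕ} {k : K} {m n : ℕ} (h : m ≤ n) :
    rm S t k n ≤ rm S t k m :=
  rmin_anti _ (by omega)

/-- persistence of loops -/
theorem persist {D : ℕ} {F : Q → (∀ k, List (Γ k)) → Q × (∀ k, List (Γ k))} {q : ℕ → Q}
    {S : ℕ → ∀ k, List (Γ k)} {t' : ℕ} (hT : Traj D F q S t') (β : K → ℕ) {x y : ℕ}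
    (hxy : x < y)
    (hq : q x = q y) (hS : ∀ k, (S x k).take (D + β k) = (S y k).take (D + β k))
    (hk : ∀ k, (∀ s, x ≤ s → s ≤ t' → (S x k).length ≤ (S s k).length + β k) ∨
      ((S x k).length ≤ (S y k).length ∧ (∀ j, x ≤ j → j ≤ y → (S x k).length ≤ (S j k).length + β k) ∧
        (β k = 0 ∨ (S x k).length = (S y k).length))) :
    ∀ s, x ≤ s → s + (y - x) ≤ t' →
      q (s + (y - x)) = q s ∧ tops D (S (s + (y - x))) = tops D (S s) := by
  -- lengths of the common part
  have hdrop : ∀ k, (S x k).length < D + β k → (S x k).drop (D + β k) = [] ∧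
      (S y k).drop (D + β k) = [] := by
    intro k hlt
    have h1 := congrArg List.length (hS k)
    rw [List.length_take, List.length_take] at h1
    exact ⟨List.drop_eq_nil_of_le (by omega), List.drop_eq_nil_of_le (by omega)⟩
  have main : ∀ n, y + n ≤ t' → (q (x + n) = q (y + n) ∧ ∀ k, ∃ U, S (x + n) k = U ++ (S x k).drop (D + β k) ∧
      S (y + n) k = U ++ (S y k).drop (D + β k)) ∧
      ∀ k, (S x k).length ≤ (S (x + n) k).length + β k := by
    intro n
    induction n using Nat.strong_induction_on with
    | _ n ih =>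
      intro hn
      -- no undershoot
      have hNU : ∀ k, (S x k).length ≤ (S (x + n) k).length + β k := by
        intro k
        rcases hk k with h1 | ⟨h1, h2, h3⟩
        · exact h1 _ (by omega) (by omega)
        · by_cases hnp : x + n ≤ y
          · exact h2 _ (by omega) hnp
          · push Not at hnp
            obtain ⟨⟨_, h4⟩, h5⟩ := ih (n - (y - x)) (by omega) (by omega)
            obtain ⟨U, hU1, hU2⟩ := h4 k
            have e1 : y + (n - (y - x)) = x + n := by omega
            rw [e1] at hU2
            have l1 := congrArg List.length hU1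
            have l2 := congrArg List.length hU2
            rw [List.length_append, List.length_drop] at l1 l2
            have h6 := h5 k
            omega
      refine ⟨?_, hNU⟩
      rcases Nat.eq_zero_or_pos n with h0 | h0
      · subst h0
        refine ⟨hq, fun k => ⟨(S x k).take (D + β k), (List.take_append_drop _ _).symm, ?_⟩⟩
        rw [hS k]
        exact (List.take_append_drop _ _).symm
      · obtain ⟨m, rfl⟩ : ∃ m, n = m + 1 := ⟨n - 1, by omega⟩
        obtain ⟨⟨h1, h2⟩, h3⟩ := ih m (by omega) (by omega)
        have htops : tops D (S (x + m)) = tops D (S (y + m)) := by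
          funext k
          obtain ⟨U, hU1, hU2⟩ := h2 k
          show (S (x + m) k).take D = (S (y + m) k).take D
          rcases Nat.lt_or_ge (S x k).length (D + β k) with hlt | hge
          · obtain ⟨e1, e2⟩ := hdrop k hlt
            rw [hU1, hU2, e1, e2]
          · have hl : D ≤ U.length := by
              have l1 := congrArg List.length hU1
              rw [List.length_append, List.length_drop] at l1
              have := h3 k
              omega
            rw [hU1, hU2, List.take_append_of_le_length hl, List.take_append_of_le_length hl]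
        have q1 := hT.hq (x + m) (by omega)
        have q2 := hT.hq (y + m) (by omega)
        refine ⟨?_, fun k => ?_⟩
        · rw [← add_assoc, ← add_assoc, q1, q2, h1, htops]
        · have s1 := hT.hS (x + m) (by omega) k
          have s2 := hT.hS (y + m) (by omega) k
          obtain ⟨U, hU1, hU2⟩ := h2 k
          rw [h1, htops] at s1
          refine ⟨(F (q (y + m)) (tops D (S (y + m)))).2 k ++ U.drop D, ?_, ?_⟩
          · rw [← add_assoc, s1]
            unfold repl
            rw [List.append_assoc]
            congr 1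
            rw [hU1]
            rcases Nat.lt_or_ge (S x k).length (D + β k) with hlt | hge
            · rw [(hdrop k hlt).1, List.append_nil, List.append_nil]
            · have hl : D ≤ U.length := by
                have l1 := congrArg List.length hU1
                rw [List.length_append, List.length_drop] at l1
                have := h3 k
                omega
              rw [List.drop_append_of_le_length hl]
          · rw [← add_assoc, s2]
            unfold repl
            rw [List.append_assoc]
            congr 1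
            rw [hU2]
            rcases Nat.lt_or_ge (S x k).length (D + β k) with hlt | hge
            · rw [(hdrop k hlt).2, List.append_nil, List.append_nil]
            · have hl : D ≤ U.length := by
                have l1 := congrArg List.length hU1
                rw [List.length_append, List.length_drop] at l1
                have := h3 k
                omega
              rw [List.drop_append_of_le_length hl]
  intro s hs hst
  obtain ⟨n, rfl⟩ : ∃ n, s = x + n := ⟨s - x, by omega⟩
  obtain ⟨⟨h1, h2⟩, h3⟩ := main n (by omega)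
  have e : x + n + (y - x) = y + n := by omega
  rw [e]
  refine ⟨h1.symm, ?_⟩
  funext k
  obtain ⟨U, hU1, hU2⟩ := h2 k
  show (S (y + n) k).take D = (S (x + n) k).take D
  rcases Nat.lt_or_ge (S x k).length (D + β k) with hlt | hge
  · obtain ⟨e1, e2⟩ := hdrop k hlt
    rw [hU1, hU2, e1, e2]
  · have hl : D ≤ U.length := by
      have l1 := congrArg List.length hU1
      rw [List.length_append, List.length_drop] at l1
      have := h3 k
      omega
    rw [hU1, hU2, List.take_append_of_le_length hl, List.take_append_of_le_length hl]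

end core

section fin

variable {K : Type} [Finite K] {Γ : K → Type} [∀ k, Finite (Γ k)] {Q : Type} [Finite Q]

/-- In a phase in which at most one stack is not monotone up to `B` the machine is soon in a loop. -/
theorem phase_core' (D B P : ℕ) (F : Q → (∀ k, List (Γ k)) → Q × (∀ k, List (Γ k))) :
    ∃ A : ℕ, ∀ (q : ℕ → Q) (S : ℕ → ∀ k, List (Γ k)) (t' : ℕ), Traj D F q S t' →
      (∀ s, s < t' → ∀ k, (S (s + 1) k).length ≤ (S s k).length + P) →
      (∀ s k, s ≤ t' → (S s k).length ≤ P * s) → ∀ t, t ≤ t' → ∀ fr : K,
      (∀ k, k ≠ fr → Up S B t t' k ∨ Dn S B t t' k) →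
      t' ≤ A * (t + 1) ∨ ∃ i p, 0 < p ∧ i + p ≤ A * (t + 1) ∧ i + p ≤ t' ∧
        ∀ s, i ≤ s → s + p ≤ t' → q (s + p) = q s ∧ tops D (S (s + p)) = tops D (S s) := by
  classical
  have _ : Fintype K := Fintype.ofFinite K
  have hfin : ∀ k, Finite {l : List (Γ k) // l.length ≤ D + B} := fun k =>
    (List.finite_length_le (Γ k) (D + B)).to_subtype
  set T := (Q × (∀ k, {l : List (Γ k) // l.length ≤ D + B})) × (K → Fin (B + 1)) with hTdef
  have hTfin : Finite T := inferInstance
  have _ : Fintype T := Fintype.ofFinite T
  set N := Fintype.card T with hN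
  set κ := Fintype.card K with hκ
  obtain ⟨L, hL⟩ := stairs_exist N P
  set c := 1 + P * (N + 1) + P with hc
  refine ⟨1 + L * P + L * c * (κ * P) + L + 1, ?_⟩
  intro q S t' hT hstep hP t ht fr hph
  set h : ℕ → ℕ := fun s => (S s fr).length with hh
  set ψ : ℕ → ℕ := fun n => ∑ k ∈ Finset.univ.erase fr, rm S t k n with hψ
  have hψa : ∀ m n, m ≤ n → ψ n ≤ ψ m := fun m n hmn =>
    Finset.sum_le_sum fun k _ => rm_anti S hmn
  have hψt : ψ t ≤ κ * (P * t) := by
    calc ψ t ≤ ∑ _k ∈ Finset.univ.erase fr, P * t := by
          apply Finset.sum_le_sum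
          intro k _
          exact (rm_le S le_rfl le_rfl).trans (hP t k ht)
      _ = (Finset.univ.erase fr).card * (P * t) := by rw [Finset.sum_const, smul_eq_mul]
      _ ≤ κ * (P * t) := Nat.mul_le_mul_right _ (by
          rw [hκ, ← Finset.card_univ]; exact Finset.card_le_card (Finset.erase_subset _ _))
  have hrm : ∀ x y, x ≤ y → ψ x = ψ y → ∀ k, k ≠ fr → rm S t k x = rm S t k y := by
    intro x y hxy heq k hk
    by_contra hne
    have hlt : rm S t k y < rm S t k x := lt_of_le_of_ne (rm_anti S hxy) (Ne.symm hne)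
    have : ψ y < ψ x := Finset.sum_lt_sum (fun k _ => rm_anti S hxy)
      ⟨k, Finset.mem_erase.2 ⟨hk, Finset.mem_univ _⟩, hlt⟩
    omega
  set β : K → ℕ := fun k => if k = fr then 0 else B with hβ
  have hβB : ∀ k, β k ≤ B := by
    intro k
    simp only [hβ]
    split_ifs <;> omega
  -- loops
  set LP : ℕ → ℕ → Prop := fun x y => t ≤ x ∧ x < y ∧ ψ x = ψ y ∧ q x = q y ∧
    (∀ k, (S x k).take (D + β k) = (S y k).take (D + β k)) ∧
    (∀ k, min ((S x k).length - rm S t k x) B = min ((S y k).length - rm S t k y) B) ∧
    ∀ j, x ≤ j → j ≤ y → h x ≤ h j with hLP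
  -- stairs give loops
  have claim1 : ∀ r s, t ≤ r → ψ r = ψ s → Stairs N h r s → ∃ x y, LP x y ∧ y ≤ s := by
    intro r s htr hrs hst
    obtain ⟨f, f1, f2, f3, f4⟩ := hst
    obtain ⟨x, y, hxy, hcode⟩ := Fintype.exists_ne_map_eq_of_card_lt
      (fun n : Fin (N + 1) => (((q (f n), fun k => ⟨(S (f n) k).take (D + β k), by
        rw [List.length_take]
        have := hβB k
        omega⟩),
        fun k => ⟨min ((S (f n) k).length - rm S t k (f n)) B, by omega⟩) : T))
      (by rw [Fintype.card_fin]; exact Nat.lt_succ_self N)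
    have hfr : ∀ i ≤ N, r ≤ f i := by
      intro i hi
      rcases Nat.eq_zero_or_pos i with h0 | h0
      · rw [h0]; exact f2
      · exact f2.trans (f1 0 i h0 hi).le
    have hfs : ∀ i ≤ N, f i ≤ f N := by
      intro i hi
      rcases Nat.eq_or_lt_of_le hi with h0 | h0
      · rw [h0]
      · exact (f1 i N h0 le_rfl).le
    have hψf : ∀ i ≤ N, ψ (f i) = ψ r := by
      intro i hi
      have h1 := hψa _ _ (hfr i hi)
      have h2 := hψa _ _ ((hfs i hi).trans f3)
      omega
    have key : ∀ i j : ℕ, i < j → j ≤ N → q (f i) = q (f j) →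
        (∀ k, (S (f i) k).take (D + β k) = (S (f j) k).take (D + β k)) →
        (∀ k, min ((S (f i) k).length - rm S t k (f i)) B =
          min ((S (f j) k).length - rm S t k (f j)) B) → ∃ x y, LP x y ∧ y ≤ s := by
      intro i j hij hj e1 e2 e3
      refine ⟨f i, f j, ⟨htr.trans (hfr i (by omega)), f1 i j hij hj, ?_, e1, e2, e3, ?_⟩,
        (hfs j hj).trans f3⟩
      · rw [hψf i (by omega), hψf j hj]
      · intro l l1 l2
        exact f4 i (by omega) l l1 (l2.trans (hfs j hj))
    have c1 := congrArg (fun z : T => z.1.1) hcode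
    have c2 : ∀ k, (S (f x) k).take (D + β k) = (S (f y) k).take (D + β k) := by
      intro k
      have := congrArg (fun z : T => (z.1.2 k).1) hcode
      exact this
    have c3 : ∀ k, min ((S (f x) k).length - rm S t k (f x)) B =
        min ((S (f y) k).length - rm S t k (f y)) B := by
      intro k
      have := congrArg (fun z : T => (z.2 k).1) hcode
      exact this
    simp only at c1
    rcases lt_or_gt_of_ne (fun h => hxy (Fin.ext h) : (x : ℕ) ≠ y) with hlt | hlt
    · exact key x y hlt (by omega) c1 c2 c3
    · exact key y x hlt (by omega) c1.symm (fun k => (c2 k).symm) (fun k => (c3 k).symm)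
  -- loops persist
  have claim2 : ∀ x y, LP x y → y ≤ t' → ∀ s, x ≤ s → s + (y - x) ≤ t' →
      q (s + (y - x)) = q s ∧ tops D (S (s + (y - x))) = tops D (S s) := by
    intro x y ⟨l1, l2, l3, l4, l5, l6, l7⟩ hyt
    refine persist hT β l2 l4 l5 ?_
    intro k
    by_cases hkf : k = fr
    · right
      subst hkf
      have hb : β k = 0 := by simp [hβ]
      rw [hb]
      exact ⟨l7 y l2.le le_rfl, fun j j1 j2 => l7 j j1 j2, Or.inl rfl⟩
    · have hb : β k = B := by simp [hβ, hkf]
      rw [hb]
      rcases hph k hkf with hup | hdn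
      · left
        intro s s1 s2
        exact hup x s l1 s1 s2
      · right
        have hrmxy := hrm x y l2.le l3 k hkf
        have b1 : ∀ z, t ≤ z → z ≤ t' → (S z k).length ≤ rm S t k z + B := by
          intro z z1 z2
          obtain ⟨r, r1, r2, r3⟩ := rm_exists S (k := k) z1
          rw [r3]
          exact hdn r z r1 r2 z2
        have b2 := b1 x l1 (by omega)
        have b3 := b1 y (by omega) hyt
        have b4 : rm S t k x ≤ (S x k).length := rm_le S l1 le_rfl
        have b5 : rm S t k y ≤ (S y k).length := rm_le S (by omega) le_rfl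
        have b6 := l6 k
        rw [min_eq_left (by omega), min_eq_left (by omega)] at b6
        have hlen : (S x k).length = (S y k).length := by omega
        refine ⟨hlen.le, fun j j1 j2 => ?_, Or.inr hlen⟩
        have b7 : rm S t k y ≤ (S j k).length := rm_le S (by omega) j2
        omega
  -- runs without loops
  have claim3 : ∀ s₁, s₁ ≤ t' → (∀ x y, LP x y → ¬ y ≤ s₁) → ∀ s, t ≤ s → s ≤ s₁ →
      ∃ r, t ≤ r ∧ r ≤ s ∧ ψ r = ψ s ∧ (∀ j, r ≤ j → j ≤ s → h r ≤ h j) ∧
        r + L * h r + L * c * ψ s ≤ t + L * h t + L * c * ψ t := by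
    intro s₁ hs₁ hno
    have short : ∀ r s, t ≤ r → r ≤ s → s ≤ s₁ → ψ r = ψ s → (∀ j, r ≤ j → j ≤ s → h r ≤ h j) →
        s < r + L ∧ h s ≤ h r + P * (N + 1) := by
      intro r s htr hrs hss hψrs hmin
      by_contra hcon
      have : r + L ≤ s ∨ h r + P * (N + 1) < h s := by
        by_contra hc2
        push Not at hc2
        exact hcon ⟨hc2.1, hc2.2⟩
      have hst := hL h r s hrs (fun j j1 j2 => hstep j (by omega) fr) hmin this
      obtain ⟨x, y, hxy, hy⟩ := claim1 r s htr hψrs hst
      exact hno x y hxy (hy.trans hss)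
    intro s hts
    induction s, hts using Nat.le_induction with
    | base =>
      intro _
      exact ⟨t, le_rfl, le_rfl, rfl, fun j j1 j2 => by
        have : j = t := by omega
        rw [this], le_rfl⟩
    | succ s hts ih =>
      intro hss
      obtain ⟨r, r1, r2, r3, r4, r5⟩ := ih (by omega)
      obtain ⟨sh1, sh2⟩ := short r s r1 r2 (by omega) r3 r4
      have hst : h (s + 1) ≤ h s + P := hstep s (by omega) fr
      rcases Nat.lt_or_ge (ψ (s + 1)) (ψ s) with hlt | hge
      · refine ⟨s + 1, by omega, le_rfl, rfl, fun j j1 j2 => by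
          have : j = s + 1 := by omega
          rw [this], ?_⟩
        have e1 : L * h (s + 1) ≤ L * (h r + P * (N + 1) + P) := Nat.mul_le_mul_left _ (by omega)
        have e2 : L * c * (ψ (s + 1) + 1) ≤ L * c * ψ s := Nat.mul_le_mul_left _ hlt
        have e3 : L * (h r + P * (N + 1) + P) + L = L * h r + L * c := by rw [hc]; ring
        have e4 : L * c * (ψ (s + 1) + 1) = L * c * ψ (s + 1) + L * c := by ring
        omega
      · have hψe : ψ (s + 1) = ψ s := le_antisymm (hψa _ _ (Nat.le_succ s)) hge
        rcases Nat.lt_or_ge (h (s + 1)) (h r) with hlt | hge'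
        · refine ⟨s + 1, by omega, le_rfl, rfl, fun j j1 j2 => by
            have : j = s + 1 := by omega
            rw [this], ?_⟩
          rw [hψe]
          have e1 : L * (h (s + 1) + 1) ≤ L * h r := Nat.mul_le_mul_left _ hlt
          have e2 : L * (h (s + 1) + 1) = L * h (s + 1) + L := by ring
          omega
        · refine ⟨r, r1, by omega, by rw [r3, hψe], fun j j1 j2 => ?_, by rw [hψe]; exact r5⟩
          rcases Nat.eq_or_lt_of_le j2 with h0 | h0
          · rw [h0]; exact hge'
          · exact r4 j j1 (by omega)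
  -- the bound
  have hbound : ∀ s₁, t ≤ s₁ → s₁ ≤ t' → (∀ x y, LP x y → ¬ y ≤ s₁) →
      s₁ < (1 + L * P + L * c * (κ * P) + L + 1) * (t + 1) := by
    intro s₁ hts hs₁ hno
    obtain ⟨r, r1, r2, r3, r4, r5⟩ := claim3 s₁ hs₁ hno s₁ hts le_rfl
    have sh : s₁ ≤ r + L := by
      by_contra hcon
      push Not at hcon
      have hst := hL h r s₁ r2 (fun j j1 j2 => hstep j (by omega) fr) r4 (Or.inl (by omega))
      obtain ⟨x, y, hxy, hy⟩ := claim1 r s₁ r1 r3 hst
      exact hno x y hxy hy
    have e1 : L * h t ≤ L * (P * t) := Nat.mul_le_mul_left _ (hP t fr ht)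
    have e2 : L * c * ψ t ≤ L * c * (κ * (P * t)) := Nat.mul_le_mul_left _ hψt
    have e3 : (1 + L * P + L * c * (κ * P) + L + 1) * (t + 1) =
        t + L * (P * t) + L * c * (κ * (P * t)) + L + (1 + L * P + L * c * (κ * P) + L * t + t + 1) := by
      ring
    omega
  set A := 1 + L * P + L * c * (κ * P) + L + 1 with hA
  by_cases hcase : ∃ x y, LP x y ∧ y ≤ t' ∧ y ≤ A * (t + 1)
  · right
    obtain ⟨x, y, hxy, hy1, hy2⟩ := hcase
    have hlt : x < y := hxy.2.1
    refine ⟨x, y - x, by omega, by omega, by omega, ?_⟩
    intro s hs hst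
    exact claim2 x y hxy hy1 s hs hst
  · left
    push Not at hcase
    by_contra hcon
    push Not at hcon
    have htA : t ≤ A * (t + 1) := by
      have : A * (t + 1) = t + (1 + (L * P + L * c * (κ * P) + L + 1) * (t + 1)) := by
        rw [hA]; ring
      omega
    have := hbound (A * (t + 1)) htA hcon.le (fun x y hxy hy => by
      have := hcase x y hxy (by omega)
      omega)
    omega

end fin

end Pool.Agent.H50.REV
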