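import Mathlib

/-!
A number which is not a Liouville number has no long periodic stretches in its expansions with
(redundant) integer digits.
-/

namespace Pool.Agent.H50.REV

/-- integer numerators of the partial sums -/
def num (b : ℕ) (e : ℕ → ℤ) : ℕ → ℤ
  | 0 => 0
  | n + 1 => (b : ℤ) * num b e n + e n

theorem num_div {b : ℕ} (hb : 2 ≤ b) (e : ℕ → ℤ) (n : ℕ) :
    ∑ i ∈ Finset.range n, (e i : ℝ) / (b : ℝ) ^ (i + 1) = (num b e n : ℝ) / (b : ℝ) ^ n := by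
  have hb0 : (b : ℝ) ≠ 0 := by positivity
  induction n with
  | zero => simp [num]
  | succ n ih =>
    rw [Finset.sum_range_succ, ih]
    simp only [num]
    push_cast
    field_simp
    ring

theorem num_bound {b : ℕ} (hb : 2 ≤ b) {e : ℕ → ℤ} {E : ℕ} (hE : ∀ i, |e i| ≤ E) {x : ℝ}
    (hx : HasSum (fun i => (e i : ℝ) / (b : ℝ) ^ (i + 1)) x) (n : ℕ) :
    |x * (b : ℝ) ^ n - num b e n| ≤ E := by
  have hb1 : (1 : ℝ) < b := by exact_mod_cast (by omega : 1 < b)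
  have hb0 : (0 : ℝ) < b := by linarith
  have hbn : (0 : ℝ) < (b : ℝ) ^ n := by positivity
  have h1 : HasSum (fun i => (e (i + n) : ℝ) / (b : ℝ) ^ (i + n + 1))
      (x - ∑ i ∈ Finset.range n, (e i : ℝ) / (b : ℝ) ^ (i + 1)) := by
    rw [hasSum_nat_add_iff' (f := fun i => (e i : ℝ) / (b : ℝ) ^ (i + 1))]
    exact hx
  have hr : |(b : ℝ)⁻¹| < 1 := by
    rw [abs_of_pos (by positivity)]
    exact inv_lt_one_of_one_lt₀ hb1
  have h2 : HasSum (fun i : ℕ => (E : ℝ) / (b : ℝ) ^ (n + 1) * ((b : ℝ)⁻¹) ^ i)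
      ((E : ℝ) / (b : ℝ) ^ (n + 1) * (1 - (b : ℝ)⁻¹)⁻¹) :=
    (hasSum_geometric_of_abs_lt_one hr).mul_left _
  have h3 : |x - ∑ i ∈ Finset.range n, (e i : ℝ) / (b : ℝ) ^ (i + 1)| ≤
      (E : ℝ) / (b : ℝ) ^ (n + 1) * (1 - (b : ℝ)⁻¹)⁻¹ := by
    rw [← h1.tsum_eq, ← h2.tsum_eq]
    have hle : ∀ i : ℕ, ‖(e (i + n) : ℝ) / (b : ℝ) ^ (i + n + 1)‖ ≤
        (E : ℝ) / (b : ℝ) ^ (n + 1) * ((b : ℝ)⁻¹) ^ i := by
      intro i
      rw [Real.norm_eq_abs, abs_div, abs_of_pos (by positivity : (0 : ℝ) < (b : ℝ) ^ (i + n + 1))]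
      have h4 : |(e (i + n) : ℝ)| ≤ E := by exact_mod_cast hE (i + n)
      have h5 : (E : ℝ) / (b : ℝ) ^ (n + 1) * ((b : ℝ)⁻¹) ^ i = (E : ℝ) / (b : ℝ) ^ (i + n + 1) := by
        rw [inv_pow, show i + n + 1 = (n + 1) + i by ring, pow_add (b : ℝ) (n + 1) i]
        field_simp
      rw [h5]
      exact div_le_div_of_nonneg_right h4 (by positivity)
    have h6 := tsum_of_norm_bounded h2 hle
    rw [h2.tsum_eq]
    simpa [Real.norm_eq_abs] using h6
  rw [num_div hb] at h3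
  have h7 : x * (b : ℝ) ^ n - num b e n = (x - (num b e n : ℝ) / (b : ℝ) ^ n) * (b : ℝ) ^ n := by
    field_simp
  rw [h7, abs_mul, abs_of_pos hbn]
  have h8 : (E : ℝ) / (b : ℝ) ^ (n + 1) * (1 - (b : ℝ)⁻¹)⁻¹ * (b : ℝ) ^ n = E / ((b : ℝ) - 1) := by
    have : (b : ℝ) - 1 ≠ 0 := by linarith
    have h9 : 1 - (b : ℝ)⁻¹ = ((b : ℝ) - 1) / b := by field_simp
    rw [h9, pow_succ]
    field_simp
  calc |x - (num b e n : ℝ) / (b : ℝ) ^ n| * (b : ℝ) ^ n
      ≤ (E : ℝ) / (b : ℝ) ^ (n + 1) * (1 - (b : ℝ)⁻¹)⁻¹ * (b : ℝ) ^ n :=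
        mul_le_mul_of_nonneg_right h3 hbn.le
    _ = E / ((b : ℝ) - 1) := h8
    _ ≤ E := by
        apply div_le_self (by positivity)
        have : (2 : ℝ) ≤ b := by exact_mod_cast hb
        linarith

/-- Liouville bound for periodic stretches of redundant expansions -/
theorem per_bound' {b : ℕ} (hb : 2 ≤ b) {x : ℝ} (hx : ¬ Liouville x) (hirr : Irrational x)
    {e : ℕ → ℤ} {E : ℕ} (hE : ∀ i, |e i| ≤ E)
    (hs : HasSum (fun i => (e i : ℝ) / (b : ℝ) ^ (i + 1)) x) :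
    ∃ d C : ℕ, ∀ m π L : ℕ, 0 < π → (∀ r, m + r + π < L → e (m + r + π) = e (m + r)) →
      L ≤ (d + 1) * (m + π) + C := by
  obtain ⟨d, hd⟩ : ∃ d : ℕ, ∀ a c : ℤ, 1 < c → x ≠ a / c → 1 / (c : ℝ) ^ d ≤ |x - a / c| := by
    unfold Liouville at hx
    push Not at hx
    exact hx
  refine ⟨d, d + 2 * E, fun m π L hπ hper => ?_⟩
  by_cases hL : L ≤ m + π
  · nlinarith
  push Not at hL
  obtain ⟨l, rfl⟩ : ∃ l, L = m + π + l := ⟨L - (m + π), by omega⟩
  have hb1 : 1 ≤ b := by omega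
  have hbR : (2 : ℝ) ≤ b := by exact_mod_cast hb
  have hb0 : (0 : ℝ) < b := by linarith
  set I : ℤ := num b e (m + π) - num b e m with hI
  have key : ∀ r ≤ l, num b e (m + π + r) - num b e (m + r) = (b : ℤ) ^ r * I := by
    intro r
    induction r with
    | zero => intro _; simp [hI]
    | succ r ih =>
      intro hr
      have h1 := ih (by omega)
      have h2 := hper r (by omega)
      have e1 : num b e (m + π + (r + 1)) = (b : ℤ) * num b e (m + π + r) + e (m + π + r) := rfl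
      have e2 : num b e (m + (r + 1)) = (b : ℤ) * num b e (m + r) + e (m + r) := rfl
      rw [e1, e2, show m + π + r = m + r + π by ring, h2, pow_succ]
      rw [show m + π + r = m + r + π by ring] at h1
      linear_combination (b : ℤ) * h1
  set Q : ℤ := (b : ℤ) ^ (m + π) - (b : ℤ) ^ m with hQ
  have hQ1 : 1 ≤ Q := by
    have : b ^ m < b ^ (m + π) := Nat.pow_lt_pow_right (by omega) (by omega)
    have h2 : ((b : ℤ) ^ m) < (b : ℤ) ^ (m + π) := by exact_mod_cast this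
    omega
  have hQle : (Q : ℝ) ≤ (b : ℝ) ^ (m + π) := by
    rw [hQ]; push_cast
    have : (0 : ℝ) < (b : ℝ) ^ m := by positivity
    linarith
  have hQR : (1 : ℝ) ≤ Q := by exact_mod_cast hQ1
  have hQR0 : (0 : ℝ) < Q := by linarith
  -- lower bound
  have hlow := hd (2 * I) (2 * Q) (by omega) (by
    intro heq
    apply hirr
    exact ⟨((2 * I : ℤ) : ℚ) / ((2 * Q : ℤ) : ℚ), by rw [heq]; push_cast; ring⟩)
  have hfrac : ((2 * I : ℤ) : ℝ) / ((2 * Q : ℤ) : ℝ) = (I : ℝ) / Q := by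
    push_cast
    rw [mul_div_mul_left _ _ (by norm_num)]
  rw [hfrac] at hlow
  -- upper bound
  have f1 := num_bound hb hE hs (m + π + l)
  have f2 := num_bound hb hE hs (m + l)
  have hkR : (num b e (m + π + l) : ℝ) - num b e (m + l) = (b : ℝ) ^ l * I := by
    exact_mod_cast key l le_rfl
  have h2 : |x * Q * (b : ℝ) ^ l - (b : ℝ) ^ l * I| ≤ 2 * E := by
    have e1 : x * Q * (b : ℝ) ^ l = x * (b : ℝ) ^ (m + π + l) - x * (b : ℝ) ^ (m + l) := by
      rw [hQ]; push_cast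
      rw [pow_add _ (m + π) l, pow_add _ m l]; ring
    rw [e1, ← hkR]
    have e2 : x * (b : ℝ) ^ (m + π + l) - x * (b : ℝ) ^ (m + l) -
        ((num b e (m + π + l) : ℝ) - num b e (m + l)) =
        (x * (b : ℝ) ^ (m + π + l) - num b e (m + π + l)) - (x * (b : ℝ) ^ (m + l) - num b e (m + l)) := by
      ring
    rw [e2]
    calc _ ≤ |x * (b : ℝ) ^ (m + π + l) - num b e (m + π + l)| +
        |x * (b : ℝ) ^ (m + l) - num b e (m + l)| := abs_sub _ _
      _ ≤ E + E := add_le_add f1 f2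
      _ = 2 * E := by ring
  have h3 : |x - I / Q| * (b : ℝ) ^ l ≤ 2 * E := by
    have h4 : |x - I / Q| * (b : ℝ) ^ l = |x * Q * (b : ℝ) ^ l - (b : ℝ) ^ l * I| / Q := by
      rw [eq_div_iff hQR0.ne']
      rw [← abs_of_pos (show (0 : ℝ) < (b : ℝ) ^ l by positivity), ← abs_mul]
      nth_rewrite 2 [← abs_of_pos hQR0]
      rw [← abs_mul]
      congr 1
      rw [abs_of_pos (show (0 : ℝ) < (b : ℝ) ^ l by positivity)]
      field_simp
    rw [h4, div_le_iff₀ hQR0]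
    have : (0 : ℝ) ≤ E := by positivity
    nlinarith
  have h5 : (b : ℝ) ^ l ≤ 2 * E * (b : ℝ) ^ ((m + π + 1) * d) := by
    have h6 : ((2 * Q : ℤ) : ℝ) ^ d ≤ (b : ℝ) ^ ((m + π + 1) * d) := by
      rw [pow_mul]
      apply pow_le_pow_left₀ (by push_cast; linarith)
      push_cast
      rw [pow_succ]
      have : (0 : ℝ) < (b : ℝ) ^ (m + π) := by positivity
      nlinarith
    have h7 : (0 : ℝ) < ((2 * Q : ℤ) : ℝ) ^ d := by
      apply pow_pos; push_cast; linarith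
    have h8 : (b : ℝ) ^ l ≤ |x - I / Q| * (b : ℝ) ^ l * ((2 * Q : ℤ) : ℝ) ^ d := by
      have h9 : 1 ≤ |x - I / Q| * ((2 * Q : ℤ) : ℝ) ^ d := by
        rw [div_le_iff₀ h7] at hlow
        exact hlow
      have h10 : (0 : ℝ) < (b : ℝ) ^ l := by positivity
      nlinarith
    calc (b : ℝ) ^ l ≤ |x - I / Q| * (b : ℝ) ^ l * ((2 * Q : ℤ) : ℝ) ^ d := h8
      _ ≤ 2 * E * ((2 * Q : ℤ) : ℝ) ^ d := mul_le_mul_of_nonneg_right h3 h7.le
      _ ≤ 2 * E * (b : ℝ) ^ ((m + π + 1) * d) := mul_le_mul_of_nonneg_left h6 (by positivity)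
  have h6 : b ^ l ≤ b ^ (2 * E + (m + π + 1) * d) := by
    have h7 : (2 * E : ℕ) ≤ b ^ (2 * E) := (Nat.lt_pow_self (by omega)).le
    have h8 : b ^ l ≤ 2 * E * b ^ ((m + π + 1) * d) := by exact_mod_cast h5
    calc b ^ l ≤ 2 * E * b ^ ((m + π + 1) * d) := h8
      _ ≤ b ^ (2 * E) * b ^ ((m + π + 1) * d) := Nat.mul_le_mul_right _ h7
      _ = b ^ (2 * E + (m + π + 1) * d) := by rw [pow_add]
  have h7 : l ≤ 2 * E + (m + π + 1) * d := (Nat.pow_le_pow_iff_right (by omega)).1 h6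
  have h8 : (d + 1) * (m + π) + (d + 2 * E) = m + π + (2 * E + (m + π + 1) * d) := by ring
  omega

end Pool.Agent.H50.REV
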