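import Pool.Agent.H77.RT.Rev

/-!
# Real-time machines for algebraic irrationals reverse their heads at least `ε log n` times

The machine model is the one of the frozen statement of the problem.  A tape with one head is a pair of
stacks; as long as the head does not reverse its direction both stacks have monotone heights.

Theorem.  If a machine prints the base-`b` digits of an algebraic irrational number in real time, then
for every `B` there is `ε > 0` such that, for all large `n`, whenever the time interval `[0, n]` is divided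
at the points of a finite set `F` into pieces on which the height of every work stack is nondecreasing up
to `B` or nonincreasing up to `B`, the set `F` has at least `ε log n` elements.

In particular (`B = 0`) no algebraic irrational is real-time computable by a multitape machine that makes
`o(log n)` head reversals in its first `n` steps.

Sketch.  Consider a piece `[t, t']` with `t'` larger than a constant times `t`.  The windows consisting of
the top `D + B` symbols of all stacks evolve like a finite automaton as long as no falling stack reaches a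
new minimum; the heights at time `t` are `O(t)`, so after `O(t)` steps there are no new minima, and from
then on the machine, and the digits it prints, are periodic with a bounded period up to time `t'`.  This
contradicts Liouville's inequality.  So every interval `(G^j, G^(j+1))` contains a point of `F`.
-/

namespace Pool.Agent.H50.REV.OldReversalBound

variable {K : Type} [DecidableEq K] {Γ : K → Type} {Λ σ : Type}

/-- The configuration of the machine `M` after `t` steps, started on empty stacks (`none` if it has
halted before). -/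
def config (M : Λ → Turing.TM2.Stmt Γ Λ σ) (l₀ : Λ) (v₀ : σ) (t : ℕ) : Option (Turing.TM2.Cfg Γ Λ σ) :=
  (fun o : Option (Turing.TM2.Cfg Γ Λ σ) => o.bind (Turing.TM2.step (M := M)))^[t]
    (some ⟨some l₀, v₀, fun _ => []⟩)

/-- The machine computes the base-`b` digits of `x` in real time, with output stack `out`, coding `enc`
and constant `c`: word for word the two clauses of the frozen statement. -/
def ComputesInRealTime (M : Λ → Turing.TM2.Stmt Γ Λ σ) (l₀ : Λ) (v₀ : σ) (out : K) (enc : Γ out → ℕ)
    (c b : ℕ) (x : ℝ) : Prop :=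
  (∀ t t' : ℕ, t ≤ t' → ∀ C C' : Turing.TM2.Cfg Γ Λ σ,
    config M l₀ v₀ t = some C → config M l₀ v₀ t' = some C' → C.stk out <:+ C'.stk out) ∧
  ∀ n : ℕ, ∃ C : Turing.TM2.Cfg Γ Λ σ, config M l₀ v₀ (c * (n + 1)) = some C ∧
    ∀ i < n, Option.map enc ((C.stk out).reverse[i]?) =
      some (Int.toNat (⌊x * (b : ℝ) ^ (i + 1)⌋ % (b : ℤ)))

/-- The height of stack `k` after `t` steps. -/
def height (M : Λ → Turing.TM2.Stmt Γ Λ σ) (l₀ : Λ) (v₀ : σ) (k : K) (t : ℕ) : ℕ :=
  ((config M l₀ v₀ t).map (fun C => (C.stk k).length)).getD 0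

/-- On the time interval `[t, t']` the function `h` is nondecreasing up to `B` or nonincreasing up
to `B`. -/
def MonotoneUpTo (B : ℕ) (h : ℕ → ℕ) (t t' : ℕ) : Prop :=
  (∀ s s', t ≤ s → s ≤ s' → s' ≤ t' → h s ≤ h s' + B) ∨
    (∀ s s', t ≤ s → s ≤ s' → s' ≤ t' → h s' ≤ h s + B)

/-- **Main theorem.** -/
theorem result (b : ℕ) (hb : 2 ≤ b) (x : ℝ) (halg : IsAlgebraic ℚ x) (hirr : Irrational x)
    (K : Type) [Fintype K] [DecidableEq K] (Γ : K → Type) [∀ k, Fintype (Γ k)]
    (Λ : Type) [Fintype Λ] (σ : Type) [Fintype σ]
    (M : Λ → Turing.TM2.Stmt Γ Λ σ) (l₀ : Λ) (v₀ : σ) (out : K) (enc : Γ out → ℕ) (c : ℕ)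
    (h : ComputesInRealTime M l₀ v₀ out enc c b x) (B : ℕ) :
    ∃ ε : ℝ, 0 < ε ∧ ∀ᶠ n : ℕ in Filter.atTop, ∀ F : Finset ℕ,
      (∀ t t', t ≤ t' → t' ≤ n → (∀ s ∈ F, s ≤ t ∨ t' ≤ s) →
        ∀ k, k ≠ out → MonotoneUpTo B (height M l₀ v₀ k) t t') →
      ε * Real.log n ≤ F.card := by
  obtain ⟨A, hA⟩ := Pool.Agent.H77.RT.phase_bound M l₀ v₀ (out := out) (enc := enc) (c := c) hb halg
    hirr h.1 h.2 B
  exact Pool.Agent.H77.RT.count_phases (A := A)
    (ph := fun t t' => ∀ k, k ≠ out → MonotoneUpTo B (height M l₀ v₀ k) t t') hA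

/-- Corollary: the number of times `s < n` at which some work stack reverses its direction (its height
changes at step `s`, and its last change before had the opposite sign) is at least `ε log n`. -/
theorem reversals (b : ℕ) (hb : 2 ≤ b) (x : ℝ) (halg : IsAlgebraic ℚ x) (hirr : Irrational x)
    (K : Type) [Fintype K] [DecidableEq K] (Γ : K → Type) [∀ k, Fintype (Γ k)]
    (Λ : Type) [Fintype Λ] (σ : Type) [Fintype σ]
    (M : Λ → Turing.TM2.Stmt Γ Λ σ) (l₀ : Λ) (v₀ : σ) (out : K) (enc : Γ out → ℕ) (c : ℕ)
    (h : ComputesInRealTime M l₀ v₀ out enc c b x) :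
    ∃ ε : ℝ, 0 < ε ∧ ∀ᶠ n : ℕ in Filter.atTop,
      ε * Real.log n ≤ Nat.card {s : ℕ | s < n ∧ ∃ k, k ≠ out ∧ ∃ r < s,
        (∀ i, r < i → i < s → height M l₀ v₀ k (i + 1) = height M l₀ v₀ k i) ∧
        ((height M l₀ v₀ k r < height M l₀ v₀ k (r + 1) ∧
            height M l₀ v₀ k (s + 1) < height M l₀ v₀ k s) ∨
          (height M l₀ v₀ k (r + 1) < height M l₀ v₀ k r ∧
            height M l₀ v₀ k s < height M l₀ v₀ k (s + 1)))} := by
  classical
  obtain ⟨ε, hε, hn⟩ := result b hb x halg hirr K Γ Λ σ M l₀ v₀ out enc c h 0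
  refine ⟨ε, hε, hn.mono fun n hF => ?_⟩
  set R : Set ℕ := {s : ℕ | s < n ∧ ∃ k, k ≠ out ∧ ∃ r < s,
        (∀ i, r < i → i < s → height M l₀ v₀ k (i + 1) = height M l₀ v₀ k i) ∧
        ((height M l₀ v₀ k r < height M l₀ v₀ k (r + 1) ∧
            height M l₀ v₀ k (s + 1) < height M l₀ v₀ k s) ∨
          (height M l₀ v₀ k (r + 1) < height M l₀ v₀ k r ∧
            height M l₀ v₀ k s < height M l₀ v₀ k (s + 1)))} with hR
  have hfin : R.Finite := (Set.finite_Iio n).subset (fun s hs => hs.1)
  have hcard : Nat.card R = hfin.toFinset.card := by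
    rw [Nat.card_coe_set_eq, Set.ncard_eq_toFinset_card R hfin]
  rw [hcard]
  apply hF
  intro t t' htt ht'n hsep k hk
  by_contra hcon
  unfold MonotoneUpTo at hcon
  push Not at hcon
  obtain ⟨⟨s₁, s₁', a1, a2, a3, a4⟩, ⟨s₂, s₂', b1, b2, b3, b4⟩⟩ := hcon
  simp only [add_zero] at a4 b4
  set g := height M l₀ v₀ k with hg
  -- a strict decrease and a strict increase inside `[t, t']`
  have step_dn : ∀ u u', u ≤ u' → g u' < g u → ∃ i, u ≤ i ∧ i < u' ∧ g (i + 1) < g i := by
    intro u u' huu hlt
    by_contra hno
    push Not at hno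
    have : g u ≤ g u' := by
      induction u', huu using Nat.le_induction with
      | base => exact le_rfl
      | succ m hm ih =>
        by_contra hcc
        push Not at hcc
        have h1 := hno m hm (Nat.lt_succ_self m)
        have h2 : g u ≤ g m := by
          by_contra hc2
          push Not at hc2
          exact absurd (ih hc2 (fun i h1 h2 => hno i h1 (by omega))) (by omega)
        omega
    omega
  have step_up : ∀ u u', u ≤ u' → g u < g u' → ∃ i, u ≤ i ∧ i < u' ∧ g i < g (i + 1) := by
    intro u u' huu hlt
    by_contra hno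
    push Not at hno
    have : g u' ≤ g u := by
      induction u', huu using Nat.le_induction with
      | base => exact le_rfl
      | succ m hm ih =>
        by_contra hcc
        push Not at hcc
        have h1 := hno m hm (Nat.lt_succ_self m)
        have h2 : g m ≤ g u := by
          by_contra hc2
          push Not at hc2
          exact absurd (ih hc2 (fun i h1 h2 => hno i h1 (by omega))) (by omega)
        omega
    omega
  obtain ⟨i, i1, i2, i3⟩ := step_dn s₁ s₁' a2 a4
  obtain ⟨j, j1, j2, j3⟩ := step_up s₂ s₂' b2 b4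
  -- between two steps of opposite sign there is a reversal
  have key : ∀ d u : ℕ, t ≤ u → u + d < t' → 0 < d →
      ((g u < g (u + 1) ∧ g (u + d + 1) < g (u + d)) ∨ (g (u + 1) < g u ∧ g (u + d) < g (u + d + 1))) →
      False := by
    intro d
    induction d using Nat.strong_induction_on with
    | _ d ih =>
      intro u hu hud hd hopp
      by_cases hconst : ∀ i, u < i → i < u + d → g (i + 1) = g i
      · have hmem : u + d ∈ R := ⟨by omega, k, hk, u, by omega, hconst, hopp⟩
        rcases hsep (u + d) (by simpa using hmem) with h1 | h1 <;> omega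
      · push Not at hconst
        obtain ⟨m, m1, m2, m3⟩ := hconst
        have e1 : m + (u + d - m) = u + d := by omega
        have e2 : u + (m - u) = m := by omega
        rcases lt_or_gt_of_ne m3 with hlt | hgt
        · rcases hopp with ⟨o1, o2⟩ | ⟨o1, o2⟩
          · exact ih (m - u) (by omega) u hu (by omega) (by omega) (by rw [e2]; exact Or.inl ⟨o1, hlt⟩)
          · exact ih (u + d - m) (by omega) m (by omega) (by omega) (by omega)
              (by rw [e1]; exact Or.inr ⟨hlt, o2⟩)
        · rcases hopp with ⟨o1, o2⟩ | ⟨o1, o2⟩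
          · exact ih (u + d - m) (by omega) m (by omega) (by omega) (by omega)
              (by rw [e1]; exact Or.inl ⟨hgt, o2⟩)
          · exact ih (m - u) (by omega) u hu (by omega) (by omega) (by rw [e2]; exact Or.inr ⟨o1, hgt⟩)
  rcases lt_trichotomy i j with hij | hij | hij
  · exact key (j - i) i (by omega) (by omega) (by omega)
      (by rw [show i + (j - i) = j by omega]; exact Or.inr ⟨i3, j3⟩)
  · subst hij; omega
  · exact key (i - j) j (by omega) (by omega) (by omega)
      (by rw [show j + (i - j) = i by omega]; exact Or.inl ⟨j3, i3⟩)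

end Pool.Agent.H50.REV.OldReversalBound
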