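import Pool.Agent.H50.REV.Core
import Pool.Agent.H50.REV.Num
import Pool.Agent.H77.RT.Rev

/-!
# Machines printing a redundant expansion: windows with one unrestricted stack
-/

namespace Pool.Agent.H50.REV

open Turing Pool.Agent.H77.RT

variable {K : Type} [Fintype K] [DecidableEq K] {Γ : K → Type} [∀ k, Fintype (Γ k)] {Λ : Type}
  [Fintype Λ] {σ : Type} [Fintype σ] (M : Λ → TM2.Stmt Γ Λ σ) (l₀ : Λ) (v₀ : σ)

/-- Main estimate.  `T` is arbitrary: any number of steps may pass between two digits. -/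
theorem phase_bound2 {out : K} {enc : Γ out → ℤ} {b : ℕ} (hb : 2 ≤ b) {x : ℝ}
    (hx : ¬ Liouville x) (hirr : Irrational x) {e : ℕ → ℤ}
    (hs : HasSum (fun i => (e i : ℝ) / (b : ℝ) ^ (i + 1)) x) {T : ℕ → ℕ}
    (hmono : ∀ t t' : ℕ, t ≤ t' → ∀ C C' : TM2.Cfg Γ Λ σ, conf M l₀ v₀ t = some C →
      conf M l₀ v₀ t' = some C' → C.stk out <:+ C'.stk out)
    (hdig : ∀ n : ℕ, ∃ C : TM2.Cfg Γ Λ σ, conf M l₀ v₀ (T n) = some C ∧
      ∀ i < n, Option.map enc ((C.stk out).reverse[i]?) = some (e i)) (B : ℕ) :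
    ∃ A : ℕ, ∀ t, ∀ fr : K, ∃ k, k ≠ out ∧ k ≠ fr ∧
      ¬ ((∀ s s', t ≤ s → s ≤ s' → s' ≤ T (A * (t + 1)) →
            hgt M l₀ v₀ k s ≤ hgt M l₀ v₀ k s' + B) ∨
        (∀ s s', t ≤ s → s ≤ s' → s' ≤ T (A * (t + 1)) →
            hgt M l₀ v₀ k s' ≤ hgt M l₀ v₀ k s + B)) := by
  classical
  set D := Finset.univ.sup (fun l => dep (M l)) with hD
  have hDl : ∀ l, dep (M l) ≤ D := fun l => Finset.le_sup (f := fun l => dep (M l)) (Finset.mem_univ l)
  set P := Finset.univ.sup (fun l => pus (M l)) with hP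
  have hPl : ∀ l, pus (M l) ≤ P := fun l => Finset.le_sup (f := fun l => pus (M l)) (Finset.mem_univ l)
  have hstep : ∀ s C C', conf M l₀ v₀ s = some C → conf M l₀ v₀ (s + 1) = some C' → ∀ k,
      (C'.stk k).length ≤ (C.stk k).length + P := by
    intro s C C' hC hC' k
    obtain ⟨l, hl, hCC⟩ := conf_next M l₀ v₀ hDl hC hC'
    have h1 := stepAux_length (M l) C.var (tops D C.stk) k
    have h2 := hPl l
    rw [hCC]
    simp only [repl]
    rw [List.length_append, List.length_drop]
    have h3 : (tops D C.stk k).length = min D (C.stk k).length := by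
      simp [tops]
    omega
  have hlen0 : ∀ s C, conf M l₀ v₀ s = some C → ∀ k, (C.stk k).length ≤ P * s := by
    intro s
    induction s with
    | zero =>
      intro C hC k
      rw [conf_zero] at hC
      rw [← Option.some.inj hC]; simp
    | succ s ih =>
      intro C' hC' k
      obtain ⟨C, hC⟩ := conf_some_of_le M l₀ v₀ (Nat.le_succ s) hC'
      have h1 := ih C hC k
      have h2 := hstep s C C' hC hC' k
      have h4 : P * (s + 1) = P * s + P := by ring
      omega
  have hlen : ∀ n C, conf M l₀ v₀ (T n) = some C → n ≤ (C.stk out).length := by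
    intro n C hC
    obtain ⟨C', hC', hi⟩ := hdig n
    rw [hC] at hC'
    obtain rfl := Option.some.inj hC'
    by_contra hcon
    push Not at hcon
    have := hi _ hcon
    rw [List.getElem?_eq_none (by simp)] at this
    simp at this
  have hPT : ∀ n, n ≤ P * T n := by
    intro n
    obtain ⟨C, hC, _⟩ := hdig n
    exact (hlen n C hC).trans (hlen0 _ C hC out)
  have hTge : ∀ t, t ≤ T (P * t + 1) := by
    intro t
    have h1 := hPT (P * t + 1)
    by_contra hcon
    push Not at hcon
    have := Nat.mul_le_mul_left P hcon.le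
    omega
  have hsome : ∀ t, ∃ C, conf M l₀ v₀ t = some C := by
    intro t
    obtain ⟨C, hC, _⟩ := hdig (P * t + 1)
    exact conf_some_of_le M l₀ v₀ (hTge t) hC
  choose cf hcf using hsome
  have hdig' : ∀ s, ∀ i < ((cf s).stk out).length,
      Option.map enc (((cf s).stk out).reverse[i]?) = some (e i) := by
    intro s i hi
    obtain ⟨n, hn1, hn2⟩ : ∃ n, i < n ∧ s ≤ T n := by
      refine ⟨P * (s + i + 1) + 1, ?_, ?_⟩
      · have h1 := hlen0 s _ (hcf s) out
        have h2 : P * s ≤ P * (s + i + 1) := Nat.mul_le_mul_left P (by omega)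
        omega
      · exact le_trans (by omega) (hTge (s + i + 1))
    obtain ⟨C', hC', hd⟩ := hdig n
    obtain ⟨u, hu⟩ := hmono s (T n) hn2 (cf s) C' (hcf s) hC'
    have h1 := hd i hn1
    rw [← hu, List.reverse_append, List.getElem?_append_left (by simpa using hi)] at h1
    exact h1
  obtain ⟨F, hF⟩ : ∃ F : Option Λ × σ → (∀ k, List (Γ k)) → (Option Λ × σ) × (∀ k, List (Γ k)),
      ∀ l v tp, F (some l, v) tp = (((TM2.stepAux (M l) v tp).l, (TM2.stepAux (M l) v tp).var),
        (TM2.stepAux (M l) v tp).stk) :=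
    ⟨fun q tp => match q.1 with
      | some l => (((TM2.stepAux (M l) q.2 tp).l, (TM2.stepAux (M l) q.2 tp).var),
        (TM2.stepAux (M l) q.2 tp).stk)
      | none => (q, tp), fun _ _ _ => rfl⟩
  set q : ℕ → Option Λ × σ := fun s => ((cf s).l, (cf s).var) with hq
  set S : ℕ → ∀ k, List (Γ k) := fun s => (cf s).stk with hS
  have hT : ∀ t', Traj D F q S t' := by
    intro t'
    refine ⟨fun s _ => ?_, fun s _ k => ?_⟩
    · obtain ⟨l, hl, hC⟩ := conf_next M l₀ v₀ hDl (hcf s) (hcf (s + 1))
      simp only [hq, hS]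
      rw [hl, hF, hC]
    · obtain ⟨l, hl, hC⟩ := conf_next M l₀ v₀ hDl (hcf s) (hcf (s + 1))
      simp only [hq, hS]
      rw [hl, hF, hC]
  have hE : ∀ i, |e i| ≤ ((Finset.univ.sup (fun γ => (enc γ).natAbs) : ℕ) : ℤ) := by
    intro i
    obtain ⟨C, hC, hi⟩ := hdig (i + 1)
    have h1 := hi i (Nat.lt_succ_self i)
    rcases hg : (C.stk out).reverse[i]? with _ | γ
    · rw [hg] at h1; simp at h1
    · rw [hg] at h1
      simp only [Option.map_some, Option.some.injEq] at h1
      rw [← h1, Int.abs_eq_natAbs]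
      exact_mod_cast Finset.le_sup (f := fun γ => (enc γ).natAbs) (Finset.mem_univ γ)
  obtain ⟨A, hA⟩ := phase_core' D B P F
  obtain ⟨d, C, hdC⟩ := per_bound' hb hx hirr hE hs
  refine ⟨(d + 1) * (P * A) + C + P + 1, ?_⟩
  intro t fr
  by_contra hcon
  push Not at hcon
  set A' := (d + 1) * (P * A) + C + P + 1 with hA'
  set t' := T (A' * (t + 1)) with ht'
  have hh : ∀ k s, hgt M l₀ v₀ k s = (S s k).length := by
    intro k s
    unfold hgt
    rw [hcf s]; rfl
  have hsuf : ∀ s < t', S s out <:+ S (s + 1) out := fun s _ =>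
    hmono s (s + 1) (Nat.le_succ s) _ _ (hcf s) (hcf (s + 1))
  have hsuf' : ∀ s s', s ≤ s' → S s out <:+ S s' out := fun s s' h =>
    hmono s s' h _ _ (hcf s) (hcf s')
  -- the number of digits printed at time `t'`
  have hN : A' * (t + 1) ≤ (S t' out).length := hlen _ _ (hcf t')
  have hSP : ∀ s k, (S s k).length ≤ P * s := fun s k => hlen0 s _ (hcf s) k
  have hNt : t ≤ t' := by
    by_contra hc
    push Not at hc
    have h1 := hSP t' out
    have h2 : P * t' ≤ P * t := Nat.mul_le_mul_left P hc.le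
    have h3 : A' * (t + 1) = ((d + 1) * (P * A) + C) * (t + 1) + P * t + P + t + 1 := by
      rw [hA']; ring
    omega
  have hph' : ∀ k, k ≠ fr → Up S B t t' k ∨ Dn S B t t' k := by
    intro k hkf
    by_cases hk : k = out
    · left
      intro s s' _ h _
      have := (hsuf' s s' h).length_le
      rw [hk]; omega
    · have := hcon k hk hkf
      simp only [hh] at this
      exact this
  have hPA : P * (A * (t + 1)) < A' * (t + 1) := by
    have h1 : P * (A * (t + 1)) ≤ (d + 1) * (P * (A * (t + 1))) :=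
      Nat.le_mul_of_pos_left _ (Nat.succ_pos d)
    have h2 : A' * (t + 1) = (d + 1) * (P * (A * (t + 1))) + (C + P + 1) * (t + 1) := by
      rw [hA']; ring
    have h3 : 0 < (C + P + 1) * (t + 1) := by positivity
    omega
  rcases hA q S t' (hT t') (fun s _ k => hstep s _ _ (hcf s) (hcf (s + 1)) k) (fun s k _ => hSP s k) t
    hNt fr hph' with h1 | ⟨i, p, hp, hipA, hip, hper⟩
  · have h2 := hSP t' out
    have h3 : P * t' ≤ P * (A * (t + 1)) := Nat.mul_le_mul_left P h1
    omega
  · have hPip : (S (i + p) out).length ≤ P * (A * (t + 1)) :=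
      (hSP _ _).trans (Nat.mul_le_mul_left _ hipA)
    rcases digits_periodic (hT t') hsuf hp hip hper (enc := fun γ => Equiv.intEquivNat (enc γ))
      (a := fun i => Equiv.intEquivNat (e i)) (fun s _ i hi => by
        have h1 := hdig' s i hi
        rcases hg : ((cf s).stk out).reverse[i]? with _ | γ
        · rw [hg] at h1; simp at h1
        · rw [hg] at h1
          simp only [Option.map_some, Option.some.injEq] at h1
          simp [h1]) with h1 | ⟨π, hπ, h2, h3⟩
    · omega
    · have h4 := hdC _ π _ hπ (fun r hr => Equiv.intEquivNat.injective (h3 r hr))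
      rw [h2] at h4
      have h5 : (d + 1) * (S (i + p) out).length ≤ (d + 1) * (P * (A * (t + 1))) :=
        Nat.mul_le_mul_left _ hPip
      have h6 : A' * (t + 1) = (d + 1) * (P * (A * (t + 1))) + C + (C * t + (P + 1) * (t + 1)) := by
        rw [hA']; ring
      have h7 : 0 < (P + 1) * (t + 1) := by positivity
      omega

end Pool.Agent.H50.REV
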